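import Pool.Agent.SGL.StmtsA

set_option autoImplicit false

/-!
# Squad SGL (MP_41797f_co), row CNT: the number of bad triangles after a flip
-/

namespace Pool.Agent.SGL.H50

open Pool.Agent.SGL Pool.Agent.SGE Pool.Agent.SGP Pool.Agent.SGY Pool.Agent.SGD

theorem cnt (nad : NadStmt) (flt : FltStmt) : CntStmt := by
  classical
  intro V _ E Φ a x y z u v hS hN hax hay haz hu hv
  obtain ⟨huv, huvE, ⟨hux, huy, huz⟩, ⟨hvx, hvy, hvz⟩, hcom⟩ := nad hS hN hu hv
  set B := Bd a E Φ with hB
  set B' := Bd a (flE E x y u v) (flF Φ x y u v) with hB'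
  have memB : ∀ t, t ∈ B ↔ ∃ p q r, t = {p, q, r} ∧ NF E Φ p q r ∧ a ≠ p ∧ a ≠ q ∧ a ≠ r := by
    intro t
    rw [hB]
    unfold Bd
    rw [Finset.mem_filter]
    exact ⟨fun h => h.2, fun h => ⟨Finset.mem_univ _, h⟩⟩
  have memB' : ∀ t, t ∈ B' ↔ ∃ p q r, t = {p, q, r} ∧
      NF (flE E x y u v) (flF Φ x y u v) p q r ∧ a ≠ p ∧ a ≠ q ∧ a ≠ r := by
    intro t
    rw [hB']
    unfold Bd
    rw [Finset.mem_filter]
    exact ⟨fun h => h.2, fun h => ⟨Finset.mem_univ _, h⟩⟩
  set D : Finset (Finset V) := B.filter (fun t => ¬ (x ∈ t ∧ y ∈ t)) with hD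
  have hDB : D ⊆ B := Finset.filter_subset _ _
  have hnotD : ∀ w : V, ({x, y, w} : Finset V) ∉ D := by
    intro w h
    rw [hD, Finset.mem_filter] at h
    exact h.2 ⟨by simp, by simp⟩
  have hz : ({x, y, z} : Finset V) ∈ B := (memB _).2 ⟨x, y, z, rfl, hN, hax, hay, haz⟩
  have key : ∀ t ∈ B', t ∈ D ∨ (t = {u, v, z} ∧ E z u ∧ E z v ∧ a ≠ u ∧ a ≠ v) := by
    intro t ht
    obtain ⟨p, q, r, htp, hn, hap, haq, har⟩ := (memB' t).1 ht
    rcases flt hS hu hv huv huvE p q r hn with ⟨h1, h2⟩ | ⟨w, hwx, hwy, hwu, hwv, hset⟩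
    · left
      rw [hD, Finset.mem_filter]
      refine ⟨(memB t).2 ⟨p, q, r, htp, h1, hap, haq, har⟩, ?_⟩
      intro h3
      apply h2
      rw [htp] at h3
      simpa using h3
    · right
      have hwz : w = z := by
        rcases hcom w hwu hwv with h | h | h
        · exact absurd h hwx
        · exact absurd h hwy
        · exact h
      subst hwz
      have e1 : ({p, q, r} : Finset V) = {u, v, w} := by
        apply Finset.coe_injective
        push_cast
        exact hset
      have hmem : ∀ s : V, s ∈ ({u, v, w} : Finset V) → a ≠ s := by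
        intro s hs
        rw [← e1] at hs
        simp only [Finset.mem_insert, Finset.mem_singleton] at hs
        rcases hs with h | h | h
        · rw [h]; exact hap
        · rw [h]; exact haq
        · rw [h]; exact har
      exact ⟨htp.trans e1, hwu, hwv, hmem u (by simp), hmem v (by simp)⟩
  have hlt : D.card < B.card :=
    Finset.card_lt_card ⟨hDB, fun h => hnotD z (h hz)⟩
  have hle : B'.card ≤ D.card + 1 := by
    have hsub : B' ⊆ insert ({u, v, z} : Finset V) D := by
      intro t ht
      rw [Finset.mem_insert]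
      rcases key t ht with h | h
      · exact Or.inr h
      · exact Or.inl h.1
    exact (Finset.card_le_card hsub).trans (Finset.card_insert_le _ _)
  refine ⟨by omega, ?_, ?_⟩
  · intro hc
    have hsub : B' ⊆ D := by
      intro t ht
      rcases key t ht with h | h
      · exact h
      · exact absurd h.2 hc
    exact lt_of_le_of_lt (Finset.card_le_card hsub) hlt
  · intro z' hN' haz' hzz
    have hz' : ({x, y, z'} : Finset V) ∈ B := (memB _).2 ⟨x, y, z', rfl, hN', hax, hay, haz'⟩
    have hne : ({x, y, z} : Finset V) ≠ {x, y, z'} := by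
      intro h
      have h1 : z' ∈ ({x, y, z} : Finset V) := by
        rw [h]
        simp
      simp only [Finset.mem_insert, Finset.mem_singleton] at h1
      rcases h1 with h1 | h1 | h1
      · have := hN'.2.2.1
        rw [h1] at this
        exact hS.irr _ this
      · have := hN'.2.1
        rw [h1] at this
        exact hS.irr _ this
      · exact hzz h1
    have hsub : insert ({x, y, z} : Finset V) (insert ({x, y, z'} : Finset V) D) ⊆ B := by
      intro t ht
      rw [Finset.mem_insert, Finset.mem_insert] at ht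
      rcases ht with h | h | h
      · rw [h]; exact hz
      · rw [h]; exact hz'
      · exact hDB h
    have h1 := Finset.card_le_card hsub
    rw [Finset.card_insert_of_notMem, Finset.card_insert_of_notMem (hnotD z')] at h1
    · omega
    · rw [Finset.mem_insert]
      rintro (h | h)
      · exact hne h
      · exact hnotD z h

end Pool.Agent.SGL.H50
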