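import Pool.Agent.SGL.StmtsU

set_option autoImplicit false

/-!
# Squad SGL (MP_41797f_co), row NYB: a lower edge and an edge from the corner `c` or to `a`
-/

namespace Pool.Agent.SGL.H50

open Pool.Agent.SGL Pool.Agent.SGE

theorem nyb : NybStmt := by
  intro V a c R s ρ A f hG hinj hA p q r t hpq hr hcase
  obtain ⟨hp, hsp⟩ := hA.l p q hpq
  rcases hcase with ⟨hrc, ht, hst⟩ | ⟨hta, hmax⟩
  · subst hrc
    have hst0 : 0 < s t := lt_of_le_of_lt (Nat.zero_le _) hst
    by_cases hpr : p = r
    · exact com (Or.inl (by rw [hpr]))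
    have h1 : o (f r) (f t) (f p) < 0 := by
      have := hG.rc p hp t ht hpr (by rw [hsp]; exact hst0)
      rw [o_swap']
      linarith
    rcases hA.r p q hpq with hqa | ⟨hqa, hq, hsq, _⟩
    · have h2 : o (f r) (f t) (f q) < 0 := by
        have := hG.ra r hr t ht hst
        have e1 := o_rot (f a) (f t) (f r)
        have e2 := o_swap (f r) (f t) (f a)
        rw [hqa]
        linarith
      exact fun h => same_neg h1 h2 (xs_swap h)
    · by_cases hqr : q = r
      · exact com (Or.inr (Or.inr (Or.inl (by rw [hqr]))))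
      have h2 : o (f r) (f t) (f q) < 0 := by
        have := hG.rc q hq t ht hqr (by rw [hsq]; exact hst0)
        rw [o_swap']
        linarith
      exact fun h => same_neg h1 h2 (xs_swap h)
  · subst hta
    rcases hA.r p q hpq with hqa | ⟨hqa, hq, hsq, hρ⟩
    · exact com (Or.inr (Or.inr (Or.inr (by rw [hqa]))))
    rcases Nat.eq_zero_or_pos (s r) with h0 | h0
    · by_cases hqr : q = r
      · exact com (Or.inr (Or.inr (Or.inl (by rw [hqr]))))
      have h1 : ρ q < ρ r := lt_of_le_of_ne (hmax q hq (by rw [hsq, h0]))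
        fun h => hqr (hinj q hq r hr h)
      have h2 : ρ p < ρ r := lt_trans hρ h1
      exact sepx (hG.xx p hp r hr h2) (hG.xa p hp) (hG.xx q hq r hr h1) (hG.xa q hq)
    · have h1 : o (f r) (f t) (f p) < 0 := by
        have := hG.ra p hp r hr (by rw [hsp]; exact h0)
        rw [o_swap]
        linarith
      have h2 : o (f r) (f t) (f q) < 0 := by
        have := hG.ra q hq r hr (by rw [hsq]; exact h0)
        rw [o_swap]
        linarith
      exact fun h => same_neg h1 h2 (xs_swap h)

end Pool.Agent.SGL.H50
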